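import Mathlib

namespace Pool.Agent.Results.MP_06b6d5_co.Doob

open SimpleGraph

/-- Distance-regular: connected, and for `u, v` at distance `i` the vertex `v` has `c i`
neighbours at distance `i - 1` from `u` and `b i` neighbours at distance `i + 1` from `u`. -/
def IsDistanceRegular {V : Type} (G : SimpleGraph V) : Prop :=
  G.Connected ∧ ∃ b c : ℕ → ℕ, ∀ u v : V,
    {w | G.Adj v w ∧ G.dist u w + 1 = G.dist u v}.ncard = c (G.dist u v) ∧
    {w | G.Adj v w ∧ G.dist u w = G.dist u v + 1}.ncard = b (G.dist u v)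

/-- A core: every endomorphism is an automorphism. -/
def IsCore {V : Type} (H : SimpleGraph V) : Prop :=
  ∀ f : H →g H, ∃ e : H ≃g H, ∀ x, e x = f x

/-- The subgraph induced on `s` is a core of `G`: it is a core and receives a homomorphism
from `G`. -/
def IsCoreOf {V : Type} (G : SimpleGraph V) (s : Set V) : Prop :=
  IsCore (G.induce s) ∧ Nonempty (G →g G.induce s)

abbrev P := ZMod 4 × ZMod 4
abbrev W := P × P

def wt (x : P) : ℕ :=
  if x = (0, 0) then 0
  else if x = (1, 0) ∨ x = (3, 0) ∨ x = (0, 1) ∨ x = (0, 3) ∨ x = (1, 1) ∨ x = (3, 3) then 1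
  else 2

def nm (z : W) : ℕ := wt z.1 + wt z.2

lemma wt_neg : ∀ x : P, wt (-x) = wt x := by decide +kernel
lemma wt_zero : ∀ x : P, wt x = 0 ↔ x = 0 := by decide +kernel
lemma nm_neg (z : W) : nm (-z) = nm z := by simp [nm, wt_neg]
lemma nm_zero' : nm 0 = 0 := by decide +kernel
lemma nm_eq_zero (z : W) (h : nm z = 0) : z = 0 := by
  have h1 : wt z.1 = 0 := by unfold nm at h; omega
  have h2 : wt z.2 = 0 := by unfold nm at h; omega
  exact Prod.ext ((wt_zero _).1 h1) ((wt_zero _).1 h2)

/-- The Doob graph `Shrikhande □ Shrikhande`. -/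
def D : SimpleGraph W where
  Adj u v := nm (v - u) = 1
  symm := ⟨fun u v h => by rw [← nm_neg, neg_sub]; exact h⟩
  loopless := ⟨fun u h => by simp [nm_zero'] at h⟩

def gens : Finset W := Finset.univ.filter fun s => nm s = 1

def gensL : List W :=
  [(((1 : ZMod 4), (0 : ZMod 4)), (0, 0)), ((3, 0), (0, 0)), ((0, 1), (0, 0)), ((0, 3), (0, 0)),
   ((1, 1), (0, 0)), ((3, 3), (0, 0)),
   ((0, 0), (1, 0)), ((0, 0), (3, 0)), ((0, 0), (0, 1)), ((0, 0), (0, 3)),
   ((0, 0), (1, 1)), ((0, 0), (3, 3))]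

lemma mem_gensL : ∀ s : W, nm s = 1 ↔ s ∈ gensL.toFinset := by decide +kernel

def cc (i : ℕ) : ℕ := i
def bb (i : ℕ) : ℕ := 12 - 3 * i

lemma count_c : ∀ z : W, (gensL.toFinset.filter fun s => nm (z + s) + 1 = nm z).card = cc (nm z) := by
  decide +kernel
lemma count_b : ∀ z : W, (gensL.toFinset.filter fun s => nm (z + s) = nm z + 1).card = bb (nm z) := by
  decide +kernel
lemma lip : ∀ z : W, ∀ s ∈ gensL.toFinset, nm (z + s) ≤ nm z + 1 := by decide +kernel

lemma nm_le_walk {u v : W} (p : D.Walk u v) : nm (u - v) ≤ p.length := by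
  induction p with
  | nil => simp [nm_zero']
  | @cons a b c h p ih =>
    have h1 : nm (a - b) = 1 := by rw [← nm_neg, neg_sub]; exact h
    have := lip (b - c) (a - b) ((mem_gensL _).1 h1)
    have e : b - c + (a - b) = a - c := by abel
    rw [e] at this
    simp only [Walk.length_cons]
    omega

lemma exists_walk (k : ℕ) : ∀ u v : W, nm (v - u) = k → ∃ p : D.Walk v u, p.length = k := by
  induction k with
  | zero =>
    intro u v h
    have : v = u := sub_eq_zero.1 (nm_eq_zero _ h)
    subst this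
    exact ⟨Walk.nil, rfl⟩
  | succ k ih =>
    intro u v h
    have hc := count_c (v - u)
    have hpos : 0 < (gensL.toFinset.filter fun s => nm (v - u + s) + 1 = nm (v - u)).card := by
      rw [hc, h]; simp [cc]
    obtain ⟨s, hs⟩ := Finset.card_pos.1 hpos
    rw [Finset.mem_filter] at hs
    have e : v + s - u = v - u + s := by abel
    obtain ⟨p, hp⟩ := ih u (v + s) (by rw [e]; omega)
    have hadj : D.Adj v (v + s) := by
      show nm (v + s - v) = 1
      rw [add_sub_cancel_left]; exact (mem_gensL _).2 hs.1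
    exact ⟨Walk.cons hadj p, by simp [hp]⟩

lemma D_conn : D.Connected := by
  refine ⟨fun u v => ?_⟩
  obtain ⟨p, _⟩ := exists_walk _ v u rfl
  exact ⟨p⟩

lemma D_dist (u v : W) : D.dist u v = nm (v - u) := by
  apply le_antisymm
  · obtain ⟨p, hp⟩ := exists_walk _ u v rfl
    rw [dist_comm, ← hp]; exact dist_le p
  · obtain ⟨p, hp⟩ := D_conn.exists_walk_length_eq_dist v u
    rw [dist_comm, ← hp]; exact nm_le_walk p

lemma ncard_eq (u v : W) (Q : W → Prop) [DecidablePred Q] :
    {w | D.Adj v w ∧ Q (w - u)}.ncard =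
      (gensL.toFinset.filter fun s => Q (v - u + s)).card := by
  have : {w | D.Adj v w ∧ Q (w - u)} =
      (fun s => v + s) '' ((gensL.toFinset.filter fun s => Q (v - u + s) : Finset W) : Set W) := by
    ext w
    simp only [Set.mem_ofPred_eq, Set.mem_image, Finset.coe_filter]
    constructor
    · rintro ⟨h1, h2⟩
      refine ⟨w - v, ⟨(mem_gensL _).1 h1, ?_⟩, by abel⟩
      have e : v - u + (w - v) = w - u := by abel
      rw [e]; exact h2
    · rintro ⟨s, ⟨h1, h2⟩, rfl⟩
      refine ⟨?_, ?_⟩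
      · show nm (v + s - v) = 1
        rw [add_sub_cancel_left]; exact (mem_gensL _).2 h1
      · have e : v + s - u = v - u + s := by abel
        rw [e]; exact h2
  rw [this, Set.ncard_image_of_injective _ (add_right_injective v), Set.ncard_coe_finset]

lemma D_drg : IsDistanceRegular D := by
  refine ⟨D_conn, bb, cc, fun u v => ⟨?_, ?_⟩⟩
  · simp only [D_dist]
    rw [ncard_eq u v (fun z => nm z + 1 = nm (v - u)), count_c]
  · simp only [D_dist]
    rw [ncard_eq u v (fun z => nm z = nm (v - u) + 1), count_b]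

lemma fold_gen : ∀ s ∈ gensL.toFinset, nm ((s.1 + s.2, 0) : W) = 1 := by decide +kernel

/-- The addition map, a non-injective endomorphism. -/
def fold : D →g D where
  toFun z := (z.1 + z.2, 0)
  map_rel' := by
    intro a b h
    have h1 := fold_gen (b - a) ((mem_gensL _).1 h)
    show nm (((b.1 + b.2, 0) : W) - (a.1 + a.2, 0)) = 1
    have e : ((b.1 + b.2, 0) : W) - (a.1 + a.2, 0) = (((b - a).1 + (b - a).2, 0) : W) := by
      ext <;> simp <;> ring
    rw [e]; exact h1

lemma fold_not_inj : ¬ Function.Injective fold := by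
  intro h
  have h1 : fold (((1, 0), (0, 0)) : W) = fold (((0, 0), (1, 0)) : W) := by
    show ((((1, 0) : P) + (0, 0), 0) : W) = (((0, 0) : P) + (1, 0), 0)
    decide
  have := h h1
  revert this
  decide

lemma noK4_0 : ∀ b ∈ gensL.toFinset, ∀ c ∈ gensL.toFinset, ∀ d ∈ gensL.toFinset,
    ¬ (nm (c - b) = 1 ∧ nm (d - b) = 1 ∧ nm (d - c) = 1) := by decide +kernel

lemma noK4 (a b c d : W) (hab : D.Adj a b) (hac : D.Adj a c) (had : D.Adj a d)
    (hbc : D.Adj b c) (hbd : D.Adj b d) (hcd : D.Adj c d) : False := by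
  apply noK4_0 (b - a) ((mem_gensL _).1 hab) (c - a) ((mem_gensL _).1 hac) (d - a)
    ((mem_gensL _).1 had)
  simp only [sub_sub_sub_cancel_right]
  exact ⟨hbc, hbd, hcd⟩

lemma not_complete (s : Set W) (g : D →g D.induce s) : D.induce s ≠ ⊤ := by
  intro htop
  have key : ∀ x y : s, x ≠ y → D.Adj x.1 y.1 := by
    intro x y hxy
    have : (D.induce s).Adj x y := by rw [htop]; exact hxy
    exact this
  have gadj : ∀ {x y : W}, D.Adj x y → D.Adj (g x).1 (g y).1 := fun h => g.map_rel h
  have same : ∀ p q x y : W, D.Adj p q → D.Adj p x → D.Adj q x → D.Adj p y → D.Adj q y →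
      g x = g y := by
    intro p q x y h1 h2 h3 h4 h5
    by_contra hne
    exact noK4 _ _ _ _ (gadj h1) (gadj h2) (gadj h4) (gadj h3) (gadj h5) (key _ _ hne)
  have e1 : g ((0, 0), (0, 0)) = g ((1, 2), (0, 0)) :=
    same ((0, 1), (0, 0)) ((1, 1), (0, 0)) _ _ (by show nm _ = 1; decide)
      (by show nm _ = 1; decide) (by show nm _ = 1; decide) (by show nm _ = 1; decide)
      (by show nm _ = 1; decide)
  have e2 : g ((0, 0), (0, 0)) = g ((1, 3), (0, 0)) :=
    same ((1, 0), (0, 0)) ((0, 3), (0, 0)) _ _ (by show nm _ = 1; decide)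
      (by show nm _ = 1; decide) (by show nm _ = 1; decide) (by show nm _ = 1; decide)
      (by show nm _ = 1; decide)
  have h3 : D.Adj ((1, 2), (0, 0)) ((1, 3), (0, 0)) := by show nm _ = 1; decide
  have := gadj h3
  rw [← e1, ← e2] at this
  exact D.loopless.irrefl _ this

lemma not_iso (s : Set W) (hs : IsCore (D.induce s)) : IsEmpty (D ≃g D.induce s) := by
  refine ⟨fun e => fold_not_inj ?_⟩
  obtain ⟨a, ha⟩ := hs ((e.toHom.comp fold).comp e.symm.toHom)
  intro x y hxy
  have h1 : a (e x) = a (e y) := by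
    rw [ha, ha]
    simp [hxy]
  exact e.injective (a.injective h1)

/-- Every finite graph has a core. -/
lemma exists_core {V : Type} [Finite V] (G : SimpleGraph V) : ∃ s : Set V, IsCoreOf G s := by
  classical
  have hne : ∃ n, ∃ s : Set V, Nonempty (G →g G.induce s) ∧ s.ncard = n :=
    ⟨_, Set.univ, ⟨⟨fun x => ⟨x, trivial⟩, fun h => h⟩⟩, rfl⟩
  obtain ⟨s, ⟨g⟩, hs⟩ := Nat.find_spec hne
  refine ⟨s, fun f => ?_, ⟨g⟩⟩
  have hsurj : Function.Surjective f := by
    by_contra hns
    let t : Set V := Subtype.val '' Set.range f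
    have hts : t ⊆ s := by rintro _ ⟨x, _, rfl⟩; exact x.2
    have hne' : t ≠ s := by
      intro h
      apply hns
      intro y
      have : y.1 ∈ t := by rw [h]; exact y.2
      obtain ⟨x, ⟨z, rfl⟩, hx⟩ := this
      exact ⟨z, Subtype.ext hx⟩
    have hlt : t.ncard < s.ncard := Set.ncard_lt_ncard (hts.ssubset_of_ne hne') (Set.toFinite s)
    have hmin := Nat.find_min' hne (m := t.ncard)
      ⟨t, ⟨⟨fun x => ⟨(f (g x)).1, ⟨f (g x), ⟨g x, rfl⟩, rfl⟩⟩,
        fun h => f.map_rel (g.map_rel h)⟩⟩, rfl⟩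
    omega
  have hbij : Function.Bijective f := Finite.surjective_iff_bijective.1 hsurj
  let σ : Equiv.Perm s := Equiv.ofBijective f hbij
  have hpow : ∀ n : ℕ, ∀ x y : s, (G.induce s).Adj x y →
      (G.induce s).Adj ((σ ^ n) x) ((σ ^ n) y) := by
    intro n
    induction n with
    | zero => intro x y h; simpa using h
    | succ n ih =>
      intro x y h
      rw [pow_succ]
      exact ih _ _ (f.map_rel h)
  have hord : 0 < orderOf σ := orderOf_pos σ
  refine ⟨⟨σ, ?_⟩, fun x => rfl⟩
  intro x y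
  constructor
  · intro h
    have := hpow (orderOf σ - 1) _ _ h
    have e : ∀ z : s, (σ ^ (orderOf σ - 1)) (σ z) = z := by
      intro z
      rw [← Equiv.Perm.mul_apply, ← pow_succ, Nat.sub_add_cancel hord, pow_orderOf_eq_one]
      rfl
    rwa [e, e] at this
  · intro h
    exact f.map_rel h

theorem result : ∃ (V : Type) (_ : Fintype V) (G : SimpleGraph V), IsDistanceRegular G ∧
    (∃ s : Set V, IsCoreOf G s) ∧
    ∀ s : Set V, IsCoreOf G s → IsEmpty (G ≃g G.induce s) ∧ G.induce s ≠ ⊤ := by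
  refine ⟨W, inferInstance, D, D_drg, exists_core D, fun s hs => ⟨not_iso s hs.1, ?_⟩⟩
  obtain ⟨g⟩ := hs.2
  exact not_complete s g

end Pool.Agent.Results.MP_06b6d5_co.Doob
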